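import Pool.Agent.WAX.Stmts
import Pool.Agent.Helper34_K9.INX

/-!
Squad WAX, row LXB: the bound for abelian inertial quotients.
-/

open scoped BigOperators

set_option autoImplicit false

noncomputable section

namespace Pool.Agent.PP.TX.H7

open Pool.Agent.Helper51_AWC Pool.Agent.Helper79_WRA Pool.Agent.PP Pool.Agent.PP.KF
open Pool.Agent.PP.K9 Pool.Agent.PP.K9.H97 Pool.Agent.PP.H75 Pool.Agent.PP.T3 Pool.Agent.PP.T2
open Pool.Agent.PP.T5 Pool.Agent.PP.TB Pool.Agent.PP.TV
open Pool.Agent.PP.T8 (Rv Fq Fr Ei Hk Rk Fd In)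

attribute [local instance] Ideal.Quotient.field

theorem exp_pow {G : Type} [Group G] [Finite G] {ℓ : ℕ} (hl : ℓ.Prime) {V : Subgroup G}
    (hp : IsPGroup ℓ V) : ∃ b : ℕ, Monoid.exponent V = ℓ ^ b := by
  have : Fact ℓ.Prime := ⟨hl⟩
  obtain ⟨n, hn⟩ := IsPGroup.iff_card.1 hp
  have h1 : Monoid.exponent V ∣ Nat.card V := Group.exponent_dvd_nat_card
  rw [hn] at h1
  obtain ⟨b, -, hb⟩ := (Nat.dvd_prime_pow hl).1 h1
  exact ⟨b, hb⟩

theorem lxb (ln0 : Ln0Stmt) (bnk : BnkStmt) (krg : KrgStmt) (rtr : T8.RtrStmt)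
    (uwa : TB.UwaStmt) : LxbStmt := by
  intro ℓ _ M _ hM hl2 G _ _ e V γ ld hAb r a hR hra
  have hF : GoodF ℓ (FF M) := H50.fld ℓ Fact.out M hM
  have hlp : ℓ.Prime := Fact.out
  have hix : ¬ ℓ ∣ ix V γ :=
    K9.H34.inx ℓ M hM G e ld.blk V ld.tp ld.ab γ ld.gam.supp ld.gam.blk ld.und
  by_cases hV : V = ⊥
  · exact (ln0 ℓ M hM G e V γ ld hV).trans (Nat.one_le_pow _ _ hlp.pos)
  obtain ⟨b, hb⟩ := exp_pow hlp ld.tp.pg
  have hb0 : 0 < b := by
    rcases Nat.eq_zero_or_pos b with h | h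
    · exfalso
      rw [h, pow_zero] at hb
      have := Monoid.exp_eq_one_iff.1 hb
      exact hV (Subgroup.eq_bot_of_subsingleton V)
    · exact h
  -- the powers
  have hU : Uw (ℓ ^ b) V = ⊥ := by
    refine Subgroup.closure_eq_bot_iff.2 ?_
    rintro _ ⟨v, hv, rfl⟩
    have h1 := Monoid.pow_exponent_eq_one (⟨v, hv⟩ : V)
    rw [hb] at h1
    have := congrArg Subtype.val h1
    simpa using this
  have hab := (uwa G V ld.ab).2.1
  have hcard : Nat.card V ≤ ℓ ^ (r * b) := by
    have := hab ℓ r b hR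
    rw [hU] at this
    simpa using this
  have hr : 0 < r := by
    rcases Nat.eq_zero_or_pos r with h | h
    · exfalso
      rw [h, zero_mul, pow_zero] at hcard
      exact hV (Subgroup.eq_bot_of_card_le V hcard)
    · exact h
  set k := (r + 1) / 2 with hk
  have hk0 : 0 < k := by omega
  have hEi : Ei ℓ V γ := Or.inl hAb
  rcases le_or_gt k b with hkb | hkb
  · have hHk : Hk ℓ k V γ := by
      refine Or.inl (le_trans hR (Nat.mul_le_mul_right _ ?_))
      exact Nat.pow_le_pow_right hlp.pos (by omega)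
    have h1 := bnk ℓ M hM hl2 G e V γ ld b k hk0 hkb hb hEi hHk
    have h2 := hab ℓ r k hR
    have h3 : 0 < Nat.card (Uw (ℓ ^ k) V) := Nat.card_pos
    have h4 : ln e * ℓ ^ (k - 1) ≤ ℓ ^ (r * k) := Nat.le_of_mul_le_mul_right (h1.trans h2) h3
    have h5 : r * k ≤ a + (k - 1) := by
      rcases Nat.even_or_odd r with ⟨s, hs⟩ | ⟨s, hs⟩
      · have e1 : k = s := by omega
        subst hs
        rw [e1] at hk0 ⊢
        nlinarith
      · have e1 : k = s + 1 := by omega
        subst hs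
        rw [e1]
        have : (s + 1 - 1) = s := rfl
        rw [this]
        nlinarith
    have h6 : ln e * ℓ ^ (k - 1) ≤ ℓ ^ a * ℓ ^ (k - 1) := by
      rw [← pow_add]
      exact h4.trans (Nat.pow_le_pow_right hlp.pos h5)
    exact Nat.le_of_mul_le_mul_right h6 (pow_pos hlp.pos _)
  · obtain ⟨y, hy⟩ := (rtr ℓ (FF M) hF G e V γ ld hix b hb).1 hb0 hEi
    have hreg : Rg V γ y := by
      refine ⟨hy.mem, ?_, ?_⟩
      · rintro rfl
        have := hy.ord
        rw [orderOf_one] at this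
        exact (Nat.one_lt_pow hb0.ne' hlp.one_lt).ne this
      · rintro t ⟨ht, htc⟩
        refine hy.reg t ht 1 V.one_mem ?_
        rw [one_pow, mul_one]
        have h1 : t * y = y * t := Subgroup.mem_centralizer_singleton_iff.1 htc
        rw [h1]
        group
    have h1 := krg ℓ M hM G e V γ ld ⟨y, hreg⟩
    refine (h1.trans hcard).trans (Nat.pow_le_pow_right hlp.pos ?_)
    have h2 : r * b ≤ r * (k - 1) := Nat.mul_le_mul_left _ (by omega)
    refine h2.trans ?_
    rcases Nat.even_or_odd r with ⟨s, hs⟩ | ⟨s, hs⟩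
    · have e1 : k = s := by omega
      subst hs
      rw [e1] at hk0 ⊢
      obtain ⟨s', rfl⟩ : ∃ s', s = s' + 1 := ⟨s - 1, by omega⟩
      have : (s' + 1 - 1) = s' := rfl
      rw [this]
      nlinarith
    · have e1 : k = s + 1 := by omega
      subst hs
      rw [e1]
      have : (s + 1 - 1) = s := rfl
      rw [this]
      nlinarith

end Pool.Agent.PP.TX.H7
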